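import Mathlib

/-!
# Idempotent ultrafilters on the natural numbers, in eventual form
-/

set_option autoImplicit false

namespace Pool.Agent.V1158.Ram

open Filter

/-- an idempotent ultrafilter of natural numbers, stated through its eventual quantifier -/
theorem exists_idemU : ∃ U : Ultrafilter ℕ,
    (∀ p : ℕ → Prop, (∀ᶠ x in (U : Filter ℕ), p x) ↔
      ∀ᶠ x in (U : Filter ℕ), ∀ᶠ y in (U : Filter ℕ), p (x + y)) ∧
    (∀ N : ℕ, ∀ᶠ x in (U : Filter ℕ), N < x) := by
  classical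
  letI : AddSemigroup (Ultrafilter ℕ+) := Ultrafilter.addSemigroup
  obtain ⟨V, hV, -⟩ := Hindman.exists_idempotent_ultrafilter_le_FS (M := ℕ+) (fun _ => 1)
  have key : ∀ p : ℕ+ → Prop, (∀ᶠ x in (V : Filter ℕ+), p x) ↔
      ∀ᶠ x in (V : Filter ℕ+), ∀ᶠ y in (V : Filter ℕ+), p (x + y) := by
    intro p
    have h := Ultrafilter.eventually_add V V p
    rw [hV] at h
    exact h
  refine ⟨V.map (fun x : ℕ+ => (x : ℕ)), ?_, ?_⟩
  · intro p
    have h1 := key (fun x => p (x : ℕ))
    simp only [Ultrafilter.coe_map, Filter.eventually_map]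
    rw [h1]
    simp only [PNat.add_coe]
  · intro N
    simp only [Ultrafilter.coe_map, Filter.eventually_map]
    induction N with
    | zero => exact Filter.Eventually.of_forall fun x => x.pos
    | succ N ih =>
      rw [key]
      filter_upwards [ih] with x hx
      filter_upwards with y
      have := y.pos
      rw [PNat.add_coe]
      omega

/-- an idempotent ultrafilter contains the multiples of every positive number -/
theorem idem_dvd {U : Ultrafilter ℕ}
    (hU : ∀ p : ℕ → Prop, (∀ᶠ x in (U : Filter ℕ), p x) ↔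
      ∀ᶠ x in (U : Filter ℕ), ∀ᶠ y in (U : Filter ℕ), p (x + y)) (m : ℕ) (hm : 0 < m) :
    ∀ᶠ x in (U : Filter ℕ), m ∣ x := by
  classical
  haveI : NeZero m := ⟨hm.ne'⟩
  obtain ⟨r, hr⟩ : ∃ r : ZMod m, ∀ᶠ x : ℕ in (U : Filter ℕ), (x : ZMod m) = r := by
    by_contra hcon
    push Not at hcon
    have h1 : ∀ r : ZMod m, ∀ᶠ x : ℕ in (U : Filter ℕ), (x : ZMod m) ≠ r := hcon
    have h2 : ∀ᶠ x : ℕ in (U : Filter ℕ), ∀ r : ZMod m, (x : ZMod m) ≠ r :=
      Filter.eventually_all.2 h1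
    obtain ⟨x, hx⟩ := h2.exists
    exact hx _ rfl
  have h3 := (hU _).1 hr
  have h4 : r + r = r := by
    obtain ⟨x, hx, hx'⟩ := (h3.and hr).exists
    obtain ⟨y, hy, hy'⟩ := (hx.and hr).exists
    rw [Nat.cast_add, hx', hy'] at hy
    exact hy
  have h5 : r = 0 := by simpa using h4
  filter_upwards [hr] with x hx
  rw [h5] at hx
  exact (ZMod.natCast_eq_zero_iff x m).1 hx

/-- every function to a finite type is eventually constant along an ultrafilter -/
theorem exists_eventually_eq {U : Ultrafilter ℕ} {α : Type*} [Finite α] (f : ℕ → α) :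
    ∃ a, ∀ᶠ x in (U : Filter ℕ), f x = a := by
  classical
  by_contra hcon
  push Not at hcon
  have h1 : ∀ a, ∀ᶠ x in (U : Filter ℕ), f x ≠ a := hcon
  obtain ⟨x, hx⟩ := (Filter.eventually_all.2 h1).exists
  exact hx _ rfl

/-- the two-variable form -/
theorem exists_eventually_eq₂ {U V : Ultrafilter ℕ} {α : Type*} [Finite α] (f : ℕ → ℕ → α) :
    ∃ a, ∀ᶠ x in (U : Filter ℕ), ∀ᶠ y in (V : Filter ℕ), f x y = a := by
  choose g hg using fun x => exists_eventually_eq (U := V) (f x)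
  obtain ⟨a, ha⟩ := exists_eventually_eq (U := U) g
  refine ⟨a, ?_⟩
  filter_upwards [ha] with x hx
  filter_upwards [hg x] with y hy
  rw [hy, hx]

/-- a sequence all of whose increasing pairs satisfy an iterated-eventual relation -/
theorem exists_seq {U : Ultrafilter ℕ} (hinf : ∀ N : ℕ, ∀ᶠ x in (U : Filter ℕ), N < x)
    {P : ℕ → ℕ → Prop} (h : ∀ᶠ x in (U : Filter ℕ), ∀ᶠ y in (U : Filter ℕ), P x y)
    {Q : ℕ → Prop} (hQ : ∀ᶠ x in (U : Filter ℕ), Q x) :
    ∃ a : ℕ → ℕ, StrictMono a ∧ (∀ n, Q (a n)) ∧ ∀ n m, n < m → P (a n) (a m) := by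
  classical
  obtain ⟨a, h1, h2⟩ := exists_seq_of_forall_finset_exists
    (fun x => (∀ᶠ y in (U : Filter ℕ), P x y) ∧ Q x) (fun x y => x < y ∧ P x y) (by
      intro s hs
      have e1 : ∀ᶠ y in (U : Filter ℕ), ∀ x ∈ s, x < y ∧ P x y := by
        rw [Filter.eventually_all_finset]
        intro x hx
        exact (hinf x).and (hs x hx).1
      obtain ⟨y, hy⟩ := ((h.and hQ).and e1).exists
      exact ⟨y, hy.1, hy.2⟩)
  exact ⟨a, fun n m hnm => (h2 n m hnm).1, fun n => (h1 n).2, fun n m hnm => (h2 n m hnm).2⟩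

end Pool.Agent.V1158.Ram
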